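import Mathlib
import Pool.Agent.N718.LB.All
import Pool.Agent.N718.LB.FinStm
import Pool.Agent.N424.LB.Fin

/-!
# Small prime solutions of `a p + b q + c r = 0` for almost all coefficients: the exponent is one half

We order the admissible quadruples `(a, b, c, d)` with `d = 0` (the integers `a, b, c` are pairwise
coprime, not all of the same sign, and their sum is even) by the maximum `A` of `|a|, |b|, |c|`; they
are a positive proportion of all triples. For 100% of them the equation `a p + b q + c r = 0` has a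
solution in primes `p, q, r` which are at most `A ^ (1/2) (log A) ^ κ` for an absolute constant `κ`. This
is optimal up to the power of the logarithm: if `ψ(A)` tends to infinity then 100% of these equations
have no solution at all in integers, not all zero, of absolute value at most `A ^ (1/2) / ψ(A)`. So the
best exponent `μ` in `max(p, q, r) ≤ 3 |d| + m ^ μ`, `m = max(3, |a|, |b|, |c|)`, is `1/2` for 100% of the
quadruples with `d = 0`: every `μ > 1/2` is admissible and no `μ < 1/2`.

Proof. For all but `ε` of the triples the lattice of the integral points in the plane orthogonal to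
`(a, b, c)` has a basis `v, w` of vectors of size `O(A ^ (1/2))`, and `(a, b, c) = v × w`. If `v, w` run over
all pairs of integral vectors of this size, then the six linear forms `x v_i + y w_i` are prime for some
integers `x, y` bounded by a power of `log A`, for almost all pairs for which there is no local
obstruction: by a second moment (the pairs `(v_i, w_i)` are independent, and the values of a linear form
at two points are independent) which is evaluated with the theorem of Siegel and Walfisz; the primes up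
to `W` are fixed by congruences and the error is `O(1 / W)`. The conditions of coprimality, parity and
sign say exactly that there is no local obstruction.
-/

set_option autoImplicit false

namespace Pool.Agent.Results.MP_3923f3_nt.AlmostAllHomogeneous

open Finset Filter Topology

/-- The quadruple `(a, b, c, d)` is admissible. -/
structure Admissible (a b c d : ℤ) : Prop where
  a_ne : a ≠ 0
  b_ne : b ≠ 0
  c_ne : c ≠ 0
  not_pos : ¬ (0 < a ∧ 0 < b ∧ 0 < c)
  not_neg : ¬ (a < 0 ∧ b < 0 ∧ c < 0)
  even : Even (a + b + c - d)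
  gcd_abc : Int.gcd (Int.gcd a b) c = 1
  gcd_dab : Int.gcd (Int.gcd d a) b = 1
  gcd_dac : Int.gcd (Int.gcd d a) c = 1
  gcd_dbc : Int.gcd (Int.gcd d b) c = 1

/-- The equation `a p + b q + c r = d` has a solution in primes with `max(p, q, r) ≤ 3 |d| + m ^ μ`,
`m = max(3, |a|, |b|, |c|)`. -/
def SmallSolution (μ : ℝ) (a b c d : ℤ) : Prop :=
  ∃ p q r : ℕ, p.Prime ∧ q.Prime ∧ r.Prime ∧ a * p + b * q + c * r = d ∧
    ((max p (max q r) : ℕ) : ℝ) ≤ 3 * |(d : ℝ)| + ((max 3 (max |a| (max |b| |c|)) : ℤ) : ℝ) ^ μ

/-- The equation `a p + b q + c r = 0` has a solution in primes which are at most `X`. -/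
def PrimeSolution (X : ℝ) (a b c : ℤ) : Prop :=
  ∃ p q r : ℕ, p.Prime ∧ q.Prime ∧ r.Prime ∧ a * p + b * q + c * r = 0 ∧
    ((max p (max q r) : ℕ) : ℝ) ≤ X

/-- The equation `a x + b y + c z = 0` has a solution in integers, not all zero, of absolute value at
most `X`. -/
def IntegerSolution (X : ℝ) (a b c : ℤ) : Prop :=
  ∃ x y z : ℤ, ¬ (x = 0 ∧ y = 0 ∧ z = 0) ∧ a * x + b * y + c * z = 0 ∧
    ((max |x| (max |y| |z|) : ℤ) : ℝ) ≤ X

open Classical in
/-- The triples of integers `a, b, c` of absolute value at most `A` for which `(a, b, c, 0)` is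
admissible. -/
noncomputable def triples (A : ℕ) : Finset (ℤ × ℤ × ℤ) :=
  (Icc (-(A : ℤ)) A ×ˢ Icc (-(A : ℤ)) A ×ˢ Icc (-(A : ℤ)) A).filter
    (fun t => Admissible t.1 t.2.1 t.2.2 0)

open Classical in
/-- The proportion of the triples with the property `Q`. -/
noncomputable def proportion (A : ℕ) (Q : ℤ → ℤ → ℤ → Prop) : ℝ :=
  (((triples A).filter (fun t => Q t.1 t.2.1 t.2.2)).card : ℝ) / ((triples A).card : ℝ)

lemma adm_iff (a b c d : ℤ) : Admissible a b c d ↔ Pool.Agent.N718.LB.F.Admissible a b c d :=
  ⟨fun h => ⟨h.1, h.2, h.3, h.4, h.5, h.6, h.7, h.8, h.9, h.10⟩,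
    fun h => ⟨h.1, h.2, h.3, h.4, h.5, h.6, h.7, h.8, h.9, h.10⟩⟩

lemma triples_eq (A : ℕ) : triples A = Pool.Agent.N718.LB.F.triples A := by
  unfold triples Pool.Agent.N718.LB.F.triples
  ext t
  simp only [mem_filter, adm_iff]

lemma proportion_eq (A : ℕ) (Q : ℤ → ℤ → ℤ → Prop) :
    proportion A Q = Pool.Agent.N718.LB.F.proportion A Q := by
  unfold proportion Pool.Agent.N718.LB.F.proportion
  rw [triples_eq]

/-- **Small prime solutions of `a p + b q + c r = 0`, for almost all `(a, b, c)`.** -/
theorem result :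
    (∃ c₀ : ℝ, 0 < c₀ ∧ ∀ᶠ A : ℕ in atTop, c₀ * (A : ℝ) ^ 3 ≤ ((triples A).card : ℝ)) ∧
    (∃ κ : ℕ, Tendsto (fun A : ℕ =>
      proportion A (PrimeSolution ((A : ℝ) ^ (1 / 2 : ℝ) * Real.log A ^ κ))) atTop (𝓝 1)) ∧
    (∀ ψ : ℕ → ℝ, Tendsto ψ atTop atTop → Tendsto (fun A : ℕ =>
      proportion A (IntegerSolution ((A : ℝ) ^ (1 / 2 : ℝ) / ψ A))) atTop (𝓝 0)) ∧
    (∀ μ : ℝ, 1 / 2 < μ → Tendsto (fun A : ℕ =>
      proportion A (fun a b c => SmallSolution μ a b c 0)) atTop (𝓝 1)) ∧
    (∀ μ : ℝ, μ < 1 / 2 → Tendsto (fun A : ℕ =>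
      proportion A (fun a b c => SmallSolution μ a b c 0)) atTop (𝓝 0)) := by
  have h := Pool.Agent.N424.LB.fin_ Pool.Agent.N718.LB.maint Pool.Agent.N718.LB.short
    Pool.Agent.N718.LB.dens
  unfold Pool.Agent.N718.LB.F.S_FIN at h
  simp only [triples_eq, proportion_eq]
  exact h

end Pool.Agent.Results.MP_3923f3_nt.AlmostAllHomogeneous
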