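import Pool.Agent.N251.LF.AeTools
import Pool.Agent.Results.MP_3923f3_nt.OneLargeCoefficient
import Pool.Agent.Results.MP_3923f3_nt.ThreeLargeCoefficients

/-!
# Small prime solutions of ternary linear equations with coefficients near the values of generic linear forms

Let `v_i`, `i` in a countable set, be vectors in `ℝ^k` such that the sum of the `1 / (log |v_i|) ^ A` converges for some `A`;
for instance all vectors `(b_1^(n_1), …, b_k^(n_k))`, `b_j > 1`. Let `L = log |v_i|`.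

(1) For almost all `α` in `ℝ^k`, for all `ε > 0` and `B`, `T`, for all but finitely many `i`: ALL admissible equations
`a p + b q + c r = d` with `||c| - α · v_i| ≤ L ^ B` and `|a|, |b| ≤ (log |c|) ^ T` have a solution in primes with
`max(p, q, r) ≤ 3 |d| + m ^ (1 + ε)`, `m = max(3, |a|, |b|, |c|)`: the conjectured exponent.

(2) For almost all real `3 × k` matrices `α`, for all `ε > 0` and `B`, for all but finitely many `i`: ALL admissible equations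
`a p + b q + c r = d` with `(|a|, |b|, |c|)` within `L ^ B` of `α v_i` have a solution in primes with
`max(p, q, r) ≤ 3 |d| + m ^ (2 + ε)`.

For example: for almost all `(α_1, α_2)`, for all integers `c` with `||c| - (α_1 2 ^ m + α_2 3 ^ n)| ≤ (m + n) ^ B`, with finitely
many exceptions, and ALL `d` such that the equation `p + q + c r = d` is admissible, it has a solution in primes up to
`3 |d| + |c| ^ (1 + ε)`.

Proof. The starting theorems `OneLargeCoefficient` and `ThreeLargeCoefficients` bound the numbers of the exceptional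
coefficients by `X / (log X) ^ U` and `X ^ 3 / (log X) ^ U` for every `U`. For each `i` the volume of the set of the `α` with
exceptional coefficients in the window of `v_i` is at most a power of `1 / L`, and the lemma of Borel and Cantelli applies
(`Pool.Agent.N251.LF.Ae`).
-/

set_option autoImplicit false

open MeasureTheory Finset

namespace Pool.Agent.Results.MP_3923f3_nt.GenericLinearForms

open Pool.Agent.Y883.T5
open Pool.Agent.Y883.T6
open Pool.Agent.N251.LF (Slow Fast ae_tuples ae_row count_gen slow_examples)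

lemma mono {μ μ' : ℝ} (h : μ ≤ μ') {a b c d : ℤ} (hs : SmallSolution μ a b c d) : SmallSolution μ' a b c d := by
  obtain ⟨p, q, r, h1, h2, h3, h4, h5⟩ := hs
  refine ⟨p, q, r, h1, h2, h3, h4, h5.trans ?_⟩
  have h6 : (1 : ℝ) ≤ ((max 3 (max |a| (max |b| |c|)) : ℤ) : ℝ) := by
    have : (1 : ℤ) ≤ max 3 (max |a| (max |b| |c|)) := le_max_of_le_left (by norm_num)
    exact_mod_cast this
  have := Real.rpow_le_rpow_of_exponent_le h6 h
  linarith

/-- the exceptional `|c|` -/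
def Exc1 (ε : ℝ) (T : ℕ) : Set ℕ :=
  {n | ¬ ∀ a b c d : ℤ, Admissible a b c d → c.natAbs = n →
    |(a : ℝ)| ≤ Real.log |(c : ℝ)| ^ T → |(b : ℝ)| ≤ Real.log |(c : ℝ)| ^ T → SmallSolution (1 + ε) a b c d}

/-- the exceptional `(|a|, |b|, |c|)` -/
def Exc3 (ε : ℝ) : Set (Fin 3 → ℕ) :=
  {t | ¬ ∀ a b c d : ℤ, Admissible a b c d → a.natAbs = t 0 → b.natAbs = t 1 → c.natAbs = t 2 →
    SmallSolution (2 + ε) a b c d}

lemma count1 (ε : ℝ) (hε : 0 < ε) (T : ℕ) : ∀ U : ℕ, ∃ C X₀ : ℝ, ∀ X : ℝ, X₀ ≤ X →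
    {t | t ∈ Exc1 ε T ∧ ∀ l : Fin 1, |(((fun _ => t : Fin 1 → ℕ) l : ℕ) : ℝ)| ≤ X}.Finite ∧
      (({t | t ∈ Exc1 ε T ∧ ∀ l : Fin 1, |(((fun _ => t : Fin 1 → ℕ) l : ℕ) : ℝ)| ≤ X}.ncard : ℕ) : ℝ) ≤
        C * X ^ 1 / Real.log X ^ U := by
  classical
  refine count_gen (m := 1) (Exc1 ε T) (fun t _ => t) fun U => ?_
  obtain ⟨D, -, -, h⟩ := OneLargeCoefficient.result
  obtain ⟨X₀, hX₀⟩ := h ε hε U T
  refine ⟨X₀, fun X hX => ?_⟩
  have h1 := hX₀ X hX
  have hsub : {t | t ∈ Exc1 ε T ∧ ∀ _l : Fin 1, t ≤ X} ⊆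
      ((((Icc 1 X).filter (fun n : ℕ => ¬ ∀ a b c d : ℤ, Admissible a b c d → c.natAbs = n →
        |(a : ℝ)| ≤ Real.log |(c : ℝ)| ^ T → |(b : ℝ)| ≤ Real.log |(c : ℝ)| ^ T →
        SmallSolution (1 + ε) a b c d)) : Finset ℕ) : Set ℕ) := by
    rintro t ⟨ht, ht2⟩
    rw [mem_coe, mem_filter, mem_Icc]
    refine ⟨⟨?_, ht2 0⟩, ht⟩
    by_contra h0
    apply ht
    intro a b c d hadm hc
    have h2 : c = 0 := by
      have : t = 0 := by omega
      rw [this] at hc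
      exact Int.natAbs_eq_zero.1 hc
    exact absurd h2 hadm.c_ne
  refine ⟨(Finset.finite_toSet _).subset hsub, ?_⟩
  have h2 := Set.ncard_le_ncard hsub (Finset.finite_toSet _)
  rw [Set.ncard_coe_finset] at h2
  rw [pow_one]
  refine le_trans (Nat.cast_le.2 h2) (le_trans (le_of_eq ?_) h1)
  congr!

lemma count3 (ε : ℝ) (hε : 0 < ε) : ∀ U : ℕ, ∃ C X₀ : ℝ, ∀ X : ℝ, X₀ ≤ X →
    {t | t ∈ Exc3 ε ∧ ∀ l : Fin 3, |((t l : ℕ) : ℝ)| ≤ X}.Finite ∧
      (({t | t ∈ Exc3 ε ∧ ∀ l : Fin 3, |((t l : ℕ) : ℝ)| ≤ X}.ncard : ℕ) : ℝ) ≤ C * X ^ 3 / Real.log X ^ U := by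
  classical
  refine count_gen (m := 3) (Exc3 ε) (fun t l => t l) fun U => ?_
  obtain ⟨D, -, -, h⟩ := ThreeLargeCoefficients.result
  obtain ⟨X₀, hX₀⟩ := h ε hε U
  refine ⟨X₀, fun X hX => ?_⟩
  have h1 := hX₀ X hX
  have hmaps : Set.MapsTo (fun t : Fin 3 → ℕ => (t 0, t 1, t 2)) {t | t ∈ Exc3 ε ∧ ∀ l : Fin 3, t l ≤ X}
      ((((Icc 1 X ×ˢ Icc 1 X ×ˢ Icc 1 X).filter (fun t : ℕ × ℕ × ℕ => ¬ ∀ a b c d : ℤ, Admissible a b c d →
        a.natAbs = t.1 → b.natAbs = t.2.1 → c.natAbs = t.2.2 → SmallSolution (2 + ε) a b c d)) :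
        Finset (ℕ × ℕ × ℕ)) : Set (ℕ × ℕ × ℕ)) := by
    rintro t ⟨ht, ht2⟩
    rw [mem_coe, mem_filter, mem_product, mem_product, mem_Icc, mem_Icc, mem_Icc]
    have ht' : ¬ ∀ a b c d : ℤ, Admissible a b c d → a.natAbs = t 0 → b.natAbs = t 1 → c.natAbs = t 2 →
      SmallSolution (2 + ε) a b c d := ht
    have ht3 := ht'
    push Not at ht3
    obtain ⟨a, b, c, d, hadm, ha, hb, hc, -⟩ := ht3
    refine ⟨⟨⟨?_, ht2 0⟩, ⟨?_, ht2 1⟩, ⟨?_, ht2 2⟩⟩, ht'⟩
    · show 1 ≤ t 0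
      rw [← ha]
      exact Int.natAbs_pos.2 hadm.a_ne
    · show 1 ≤ t 1
      rw [← hb]
      exact Int.natAbs_pos.2 hadm.b_ne
    · show 1 ≤ t 2
      rw [← hc]
      exact Int.natAbs_pos.2 hadm.c_ne
  have hinj : Set.InjOn (fun t : Fin 3 → ℕ => (t 0, t 1, t 2)) {t | t ∈ Exc3 ε ∧ ∀ l : Fin 3, t l ≤ X} := by
    intro t _ t' _ he
    simp only [Prod.mk.injEq] at he
    funext l
    fin_cases l
    · exact he.1
    · exact he.2.1
    · exact he.2.2
  refine ⟨(Finset.finite_toSet _).of_injOn hmaps hinj, ?_⟩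
  have h2 := Set.ncard_le_ncard_of_injOn _ hmaps hinj (Finset.finite_toSet _)
  rw [Set.ncard_coe_finset] at h2
  refine le_trans (Nat.cast_le.2 h2) (le_trans (le_of_eq ?_) h1)
  congr!

/-- **Theorem.** Let `v` be a family of vectors in `ℝ^k` such that the sum of the `1 / (1 + log (1 + ‖v_i‖)) ^ A` converges for
some `A`, and let `L_i = 1 + log (1 + ‖v_i‖)`.
(1) For almost all `α` in `ℝ^k`, all `ε > 0` and all `w`, `B`, `T`, for all but finitely many `i`: ALL admissible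
`a`, `b`, `c`, `d` with `||c| - ∑ α_j v_(i,j)| ≤ w L_i ^ B` and `|a|, |b| ≤ (log |c|) ^ T` satisfy `SmallSolution (1 + ε)`.
(2) For almost all real `3 × k` matrices `α`, all `ε > 0` and all `w`, `B`, for all but finitely many `i`: ALL admissible
`a`, `b`, `c`, `d` with `|a|`, `|b|`, `|c|` within `w L_i ^ B` of the coordinates of `α v_i` satisfy `SmallSolution (2 + ε)`.
(3) Such families are the `(u_1(n_1), …, u_k(n_k))`, for all natural numbers `n_1, …, n_k`, if for all `j` and some `a, c > 0`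
one has `c (n + 1) ^ a ≤ 1 + log (1 + |u_j(n)|)`; for instance `u_j(n) = b ^ n`, `b > 1`, or `exp (n ^ a)`, `a > 0`. -/
theorem result :
    (∀ (k : ℕ) (ι : Type) (v : ι → Fin k → ℝ), Slow v → ∀ᵐ α : Fin k → ℝ, ∀ ε : ℝ, 0 < ε → ∀ (w : ℝ) (B T : ℕ),
      {i | ¬ ∀ a b c d : ℤ, Admissible a b c d →
        |(c.natAbs : ℝ) - ∑ j, α j * v i j| ≤ w * (1 + Real.log (1 + ‖v i‖)) ^ B →
        |(a : ℝ)| ≤ Real.log |(c : ℝ)| ^ T → |(b : ℝ)| ≤ Real.log |(c : ℝ)| ^ T →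
        SmallSolution (1 + ε) a b c d}.Finite) ∧
    (∀ (k : ℕ) (ι : Type) (v : ι → Fin k → ℝ), Slow v → ∀ᵐ α : Fin 3 × Fin k → ℝ, ∀ ε : ℝ, 0 < ε → ∀ (w : ℝ) (B : ℕ),
      {i | ¬ ∀ a b c d : ℤ, Admissible a b c d →
        |(a.natAbs : ℝ) - ∑ j, α (0, j) * v i j| ≤ w * (1 + Real.log (1 + ‖v i‖)) ^ B →
        |(b.natAbs : ℝ) - ∑ j, α (1, j) * v i j| ≤ w * (1 + Real.log (1 + ‖v i‖)) ^ B →
        |(c.natAbs : ℝ) - ∑ j, α (2, j) * v i j| ≤ w * (1 + Real.log (1 + ‖v i‖)) ^ B →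
        SmallSolution (2 + ε) a b c d}.Finite) ∧
    (∀ (k : ℕ) (u : Fin k → ℕ → ℝ), (∀ j, Fast (u j)) → Slow (fun (n : Fin k → ℕ) (j : Fin k) => u j (n j))) ∧
    (∀ b : ℝ, 1 < b → Fast (fun n => b ^ n)) ∧
    ∀ a : ℝ, 0 < a → Fast (fun n => Real.exp ((n : ℝ) ^ a)) := by
  refine ⟨fun k ι v hv => ?_, fun k ι v hv => ?_, slow_examples⟩
  · have key : ∀ (e T : ℕ), ∀ᵐ α : Fin k → ℝ, ∀ (w : ℝ) (B : ℕ),
        {i | ∃ t ∈ Exc1 (1 / ((e : ℝ) + 1)) T, |(t : ℝ) - ∑ j, α j * v i j| ≤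
          w * (1 + Real.log (1 + ‖v i‖)) ^ B}.Finite := by
      intro e T
      refine ae_row (fun α : Fin k → ℝ => ∀ (w : ℝ) (B : ℕ),
        {i | ∃ t ∈ Exc1 (1 / ((e : ℝ) + 1)) T, |(t : ℝ) - ∑ j, α j * v i j| ≤
          w * (1 + Real.log (1 + ‖v i‖)) ^ B}.Finite) ?_
      have h1 := ae_tuples (m := 1) (Exc1 (1 / ((e : ℝ) + 1)) T) (fun t _ => (t : ℝ))
        (count1 _ (by positivity) T) v hv
      filter_upwards [h1] with α hα w B
      refine (hα w B).subset ?_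
      rintro i ⟨t, ht, h2⟩
      refine ⟨t, ht, fun l => ?_⟩
      have : l = 0 := Subsingleton.elim _ _
      rw [this]
      exact h2
    have key2 : ∀ᵐ α : Fin k → ℝ, ∀ (e T : ℕ), ∀ (w : ℝ) (B : ℕ),
        {i | ∃ t ∈ Exc1 (1 / ((e : ℝ) + 1)) T, |(t : ℝ) - ∑ j, α j * v i j| ≤
          w * (1 + Real.log (1 + ‖v i‖)) ^ B}.Finite := by
      rw [ae_all_iff]; intro e
      rw [ae_all_iff]; intro T
      exact key e T
    filter_upwards [key2] with α hα ε hε w B T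
    obtain ⟨e, he⟩ := exists_nat_one_div_lt hε
    refine (hα e T w B).subset ?_
    intro i hi
    simp only [Set.mem_ofPred_eq] at hi ⊢
    push Not at hi
    obtain ⟨a, b, c, d, hadm, h1, h2, h3, h4⟩ := hi
    refine ⟨c.natAbs, fun h5 => h4 (mono (by linarith) (h5 a b c d hadm rfl h2 h3)), h1⟩
  · have key2 : ∀ᵐ α : Fin 3 × Fin k → ℝ, ∀ (e : ℕ), ∀ (w : ℝ) (B : ℕ),
        {i | ∃ t ∈ Exc3 (1 / ((e : ℝ) + 1)), ∀ l, |(t l : ℝ) - ∑ j, α (l, j) * v i j| ≤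
          w * (1 + Real.log (1 + ‖v i‖)) ^ B}.Finite := by
      rw [ae_all_iff]; intro e
      exact ae_tuples (m := 3) (Exc3 (1 / ((e : ℝ) + 1))) (fun t l => (t l : ℝ)) (count3 _ (by positivity)) v hv
    filter_upwards [key2] with α hα ε hε w B
    obtain ⟨e, he⟩ := exists_nat_one_div_lt hε
    refine (hα e w B).subset ?_
    intro i hi
    simp only [Set.mem_ofPred_eq] at hi ⊢
    push Not at hi
    obtain ⟨a, b, c, d, hadm, h1, h2, h3, h4⟩ := hi
    refine ⟨![a.natAbs, b.natAbs, c.natAbs], fun h5 => h4 (mono (by linarith) (h5 a b c d hadm rfl rfl rfl)), ?_⟩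
    intro l
    fin_cases l
    · exact h1
    · exact h2
    · exact h3

end Pool.Agent.Results.MP_3923f3_nt.GenericLinearForms
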