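import Mathlib
import Pool.Agent.N909.TF.Bak3

set_option autoImplicit false

/-!
# Baker's constant is 1 in every sieved sequential random model of the primes

The question (Liu and Tsang) is whether Baker's constant `M`, the infimum of the `t` such that every
admissible equation `a p + b q + c r = d` has a solution in primes at most
`3 |d| + max (3, |a|, |b|, |c|) ^ t`, is equal to `1`.  We prove that it is `1` in EVERY sequential
random model of the primes: the integers are decided one after the other, only integers coprime to a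
fixed `Q` can be chosen, and the conditional probability of choosing `n + 1` (coprime to `Q`) given
the past is asymptotic to `(Q / φ(Q)) / log n`.  No independence is assumed.
-/

open MeasureTheory Filter
open scoped Topology

namespace Pool.Agent.Results.MP_3923f3_nt.SievedModels

/-- admissible quadruples -/
def Admissible (a b c d : ℤ) : Prop :=
  (a ≠ 0 ∧ b ≠ 0 ∧ c ≠ 0) ∧ ¬ (0 < a ∧ 0 < b ∧ 0 < c) ∧ ¬ (a < 0 ∧ b < 0 ∧ c < 0) ∧ Even (a + b + c - d) ∧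
  gcd a (gcd b c) = 1 ∧ gcd d (gcd a b) = 1 ∧ gcd d (gcd a c) = 1 ∧ gcd d (gcd b c) = 1

/-- `m(a, b, c) = max (3, |a|, |b|, |c|)` -/
def mx (a b c : ℤ) : ℤ := max 3 (max |a| (max |b| |c|))

/-- `t` is good for `S` and the large values of `m(a, b, c)` -/
def Good (S : Set ℕ) (t : ℝ) : Prop := ∃ m₀ : ℝ, ∀ a b c d : ℤ, Admissible a b c d → m₀ ≤ mx a b c →
  ∃ p ∈ S, ∃ q ∈ S, ∃ r ∈ S, a * p + b * q + c * r = d ∧
    ((max p (max q r) : ℕ) : ℝ) ≤ 3 * |d| + (mx a b c : ℝ) ^ t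

/-- Baker's constant of a set of integers (for the large values of `m(a, b, c)`) -/
noncomputable def bakerConstant (S : Set ℕ) : ℝ := sInf {t : ℝ | Good S t}

open Pool.Agent.N909.TF Pool.Agent.N909.TF.Bak

lemma adm {a b c d : ℤ} (h : Admissible a b c d) : Adm ![a, b, c] d := by
  obtain ⟨⟨h1, h2, h3⟩, h4, h5, h6, h7, h8, h9, h10⟩ := h
  have key : ∀ {x y z : ℤ}, gcd x (gcd y z) = 1 → ∀ l : ℕ, l.Prime → ¬ ((l : ℤ) ∣ x ∧ (l : ℤ) ∣ y ∧ (l : ℤ) ∣ z) := by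
    intro x y z hg l hl hh
    have k1 : (l : ℤ) ∣ 1 := hg ▸ dvd_gcd hh.1 (dvd_gcd hh.2.1 hh.2.2)
    have k2 : (l : ℕ) ∣ 1 := by exact_mod_cast k1
    exact hl.one_lt.ne' (Nat.dvd_one.1 k2)
  refine ⟨?_, ?_, ?_, h6, ?_, ?_⟩
  · intro i
    fin_cases i
    · exact h1
    · exact h2
    · exact h3
  · exact fun h => h4 ⟨h 0, h 1, h 2⟩
  · exact fun h => h5 ⟨h 0, h 1, h 2⟩
  · exact fun l hl h => key h7 l hl ⟨h 0, h 1, h 2⟩
  · intro l hl i j hij h
    fin_cases i <;> fin_cases j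
    · exact hij rfl
    · exact key h8 l hl h
    · exact key h9 l hl h
    · exact key h8 l hl ⟨h.1, h.2.2, h.2.1⟩
    · exact hij rfl
    · exact key h10 l hl h
    · exact key h9 l hl ⟨h.1, h.2.2, h.2.1⟩
    · exact key h10 l hl ⟨h.1, h.2.2, h.2.1⟩
    · exact hij rfl

/-- solutions from the theorem on codes -/
lemma upper (S : ℕ → Prop) (e : ℝ) (he : 0 < e)
    (h : ∀ᶠ n in atTop ⊓ 𝓟 {n | Ok (e / (1 + e)) n}, ∃ v : Fin 3 → ℕ, (∀ i, v i ≤ cB n ∧ (0 < v i ∧ S (v i))) ∧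
      Function.Injective v ∧ ∑ i, cw n i * v i = cd n) :
    ∃ K : ℝ, ∀ a b c d : ℤ, Admissible a b c d → ∃ p q r : ℕ, (0 < p ∧ S p) ∧ (0 < q ∧ S q) ∧ (0 < r ∧ S r) ∧
      p ≠ q ∧ q ≠ r ∧ p ≠ r ∧ a * p + b * q + c * r = d ∧
      ((max p (max q r) : ℕ) : ℝ) ≤ 3 * |d| + K * (mx a b c : ℝ) ^ (1 + e) := by
  rw [eventually_inf_principal, eventually_atTop] at h
  obtain ⟨N, hN⟩ := h
  refine ⟨N + 2, fun a b c d hab => ?_⟩
  have hm3 : (3 : ℤ) ≤ mx a b c := le_max_left _ _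
  have hm3' : (3 : ℝ) ≤ mx a b c := by exact_mod_cast hm3
  have hM1 : (1 : ℝ) ≤ (mx a b c : ℝ) ^ (1 + e) := Real.one_le_rpow (by linarith) (by linarith)
  set R : ℝ := 3 * |d| + (N + 2) * (mx a b c : ℝ) ^ (1 + e) with hR
  have hd0 : (0 : ℝ) ≤ |(d : ℝ)| := abs_nonneg _
  have hcast : ((|d| : ℤ) : ℝ) = |(d : ℝ)| := by push_cast; rfl
  have hN0 : (0 : ℝ) ≤ N := Nat.cast_nonneg _
  have hR0 : 0 ≤ R := by rw [hR]; positivity
  set B : ℕ := ⌊R⌋₊ with hB
  have hBR : (B : ℝ) ≤ R := Nat.floor_le hR0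
  have hRB : R < B + 1 := Nat.lt_floor_add_one R
  have hBM : (mx a b c : ℝ) ^ (1 + e) ≤ B := by
    have : (N + 2) * (mx a b c : ℝ) ^ (1 + e) ≤ R := by
      rw [hR, hcast]
      linarith
    nlinarith
  have hBN : N ≤ B := by
    have k1 : ((N : ℕ) : ℝ) ≤ R := by
      rw [hR, hcast]
      nlinarith
    exact Nat.le_floor k1
  have hdB : 3 * |d| ≤ (B : ℤ) := by
    have k1 : ((3 * |d|.natAbs : ℕ) : ℝ) ≤ R := by
      rw [hR]
      have e1 : (((3 * |d|.natAbs : ℕ) : ℤ) : ℝ) = 3 * (|d| : ℤ) := by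
        have : ((3 * |d|.natAbs : ℕ) : ℤ) = 3 * |d| := by
          push_cast
          rw [abs_abs]
        rw [this]
        push_cast
        rfl
      rw [Int.cast_natCast] at e1
      rw [e1]
      have : 0 ≤ (N + 2) * (mx a b c : ℝ) ^ (1 + e) := by positivity
      push_cast at this ⊢
      linarith
    have k2 := Nat.le_floor k1
    rw [← hB] at k2
    rw [Int.natAbs_abs] at k2
    rw [Int.abs_eq_natAbs]
    exact_mod_cast k2
  have hi : ∀ i, (((![a, b, c] : Fin 3 → ℤ) i).natAbs : ℝ) ≤ (B : ℝ) ^ (1 - e / (1 + e)) := by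
    intro i
    have k1 : (((![a, b, c] : Fin 3 → ℤ) i).natAbs : ℝ) ≤ (mx a b c : ℝ) := by
      have : ((((![a, b, c] : Fin 3 → ℤ) i).natAbs : ℕ) : ℤ) ≤ mx a b c := by
        rw [Int.natCast_natAbs]
        unfold mx
        fin_cases i
        · exact (le_max_left _ _).trans (le_max_right _ _)
        · exact (le_max_left _ _).trans ((le_max_right _ _).trans (le_max_right _ _))
        · exact (le_max_right _ _).trans ((le_max_right _ _).trans (le_max_right _ _))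
      have k := (Int.cast_le (R := ℝ)).2 this
      rwa [Int.cast_natCast] at k
    refine k1.trans ?_
    have e1 : ((mx a b c : ℝ) ^ (1 + e)) ^ (1 - e / (1 + e)) = mx a b c := by
      rw [← Real.rpow_mul (by linarith)]
      have : (1 + e) * (1 - e / (1 + e)) = 1 := by
        field_simp
        ring
      rw [this, Real.rpow_one]
    rw [← e1]
    apply Real.rpow_le_rpow (by positivity) hBM
    have : e / (1 + e) ≤ 1 := by
      rw [div_le_one (by linarith)]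
      linarith
    linarith
  have hok : Ok (e / (1 + e)) (code B ![a, b, c] d) := by
    unfold Ok
    rw [code_w, code_d, code_B]
    exact ⟨adm hab, hi, hdB⟩
  obtain ⟨v, v1, v2, v3⟩ := hN _ (hBN.trans (code_ge B _ d)) hok
  rw [code_w, code_d, Fin.sum_univ_three] at v3
  simp only [code_B] at v1
  refine ⟨v 0, v 1, v 2, (v1 0).2, (v1 1).2, (v1 2).2, fun h => absurd (v2 h) (by decide),
    fun h => absurd (v2 h) (by decide), fun h => absurd (v2 h) (by decide), v3, ?_⟩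
  have : max (v 0) (max (v 1) (v 2)) ≤ B := max_le (v1 0).1 (max_le (v1 1).1 (v1 2).1)
  exact (by exact_mod_cast this : ((max (v 0) (max (v 1) (v 2)) : ℕ) : ℝ) ≤ B).trans hBR

/-- the lower bound -/
lemma lower (S : Set ℕ) (hS : ∀ n ∈ S, 0 < n) (t : ℝ) (h : Good S t) : 1 ≤ t := by
  by_contra hcon
  push Not at hcon
  obtain ⟨m₀, hm⟩ := h
  obtain ⟨k, hk1, hk2, hk3⟩ : ∃ k : ℕ, 3 ≤ k ∧ m₀ ≤ k ∧ 3 + (k : ℝ) ^ t < (k : ℝ) / 2 := by
    have h1 := (pow_beat (max t 0) 1 8 (by simp [hcon]) one_pos).and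
      ((eventually_ge_atTop 3).and (tendsto_natCast_atTop_atTop.eventually_ge_atTop m₀))
    obtain ⟨k, hk⟩ := h1.exists
    obtain ⟨g1, g2, g3⟩ := hk
    refine ⟨k, g2, g3, ?_⟩
    rw [Real.rpow_one] at g1
    have hk : (3 : ℝ) ≤ k := by exact_mod_cast g2
    have k1 : (k : ℝ) ^ t ≤ (k : ℝ) ^ (max t 0) := Real.rpow_le_rpow_of_exponent_le (by linarith) (le_max_left _ _)
    have k2 : (1 : ℝ) ≤ (k : ℝ) ^ (max t 0) := Real.one_le_rpow (by linarith) (le_max_right _ _)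
    nlinarith
  have hadm : Admissible 1 (-k) 1 (if k % 2 = 0 then 0 else 1) := by
    refine ⟨⟨one_ne_zero, by omega, one_ne_zero⟩, by omega, by omega, ?_, ?_, ?_, ?_, ?_⟩
    · split_ifs with h2
      · rw [Int.even_iff]
        omega
      · rw [Int.even_iff]
        omega
    · rw [← normalize_gcd]
      simp [gcd_comm]
    all_goals
      split_ifs <;> simp
  have hmx : mx 1 (-k) 1 = k := by
    unfold mx
    rw [abs_neg, abs_one, Nat.abs_cast]
    have : (3 : ℤ) ≤ k := by exact_mod_cast hk1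
    omega
  obtain ⟨p, hp, q, hq, r, hr, h1, h2⟩ := hm 1 (-k) 1 _ hadm (by rw [hmx]; exact_mod_cast hk2)
  rw [hmx] at h2
  have hq0 := hS q hq
  have h3 : (k : ℤ) ≤ p + r := by
    have h4 : (k : ℤ) * 1 ≤ k * q := by
      apply mul_le_mul_of_nonneg_left _ (by positivity)
      exact_mod_cast hq0
    split_ifs at h1 <;> linarith
  have h5 : (k : ℝ) ≤ p + r := by exact_mod_cast h3
  have h6 : ((if k % 2 = 0 then 0 else 1 : ℤ) : ℝ) ≤ 1 := by split_ifs <;> norm_num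
  have h7 : (0 : ℝ) ≤ ((if k % 2 = 0 then 0 else 1 : ℤ) : ℝ) := by split_ifs <;> norm_num
  have h8 : (p : ℝ) ≤ ((max p (max q r) : ℕ) : ℝ) := by exact_mod_cast le_max_left _ _
  have h9 : (r : ℝ) ≤ ((max p (max q r) : ℕ) : ℝ) := by
    exact_mod_cast (le_max_right q r).trans (le_max_right _ _)
  have h10 : 3 * ((|(if k % 2 = 0 then 0 else 1 : ℤ)| : ℤ) : ℝ) ≤ 3 := by
    rw [Int.cast_abs, abs_of_nonneg h7]
    linarith
  have h11 : (((k : ℕ) : ℤ) : ℝ) = k := by push_cast; rfl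
  rw [h11] at h2
  push_cast at h2 h8 h9 h10
  linarith

end Pool.Agent.Results.MP_3923f3_nt.SievedModels

open Pool.Agent.Results.MP_3923f3_nt.SievedModels Pool.Agent.N909.TF.Bak

/-- Let `A n` be the event that `n` belongs to a random set adapted to a filtration `ℱ`, let
`Q ≥ 1`, let no integer which is not coprime to `Q` be chosen, and let the conditional probability of
`A (n + 1)` given `ℱ n`, times `log n`, tend to `Q / φ(Q)` along the `n` with `n + 1` coprime to `Q`,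
almost surely.  (1) Almost surely, for every `ε > 0` there is a `K` such that every admissible
equation `a p + b q + c r = d` has a solution in pairwise different positive chosen `p, q, r` at most
`3 |d| + K m(a,b,c) ^ (1 + ε)`.  (2) Almost surely Baker's constant of the set of the positive chosen
integers is `1`. -/
theorem Pool.Agent.Results.MP_3923f3_nt.SievedModels.result
    {Ω : Type} [mΩ : MeasurableSpace Ω] (μ : Measure Ω) [IsProbabilityMeasure μ]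
    (ℱ : Filtration ℕ mΩ) (A : ℕ → Set Ω) (hA : ∀ n, MeasurableSet[ℱ n] (A n))
    (Q : ℕ) (hQ : 0 < Q) (hcop : ∀ n, ¬ Nat.Coprime n Q → A n = ∅)
    (hd : ∀ᵐ ω ∂μ, Tendsto (fun n : ℕ =>
      (μ[(A (n + 1)).indicator (fun _ => (1 : ℝ)) | ℱ n]) ω * Real.log n)
      (atTop ⊓ 𝓟 {n : ℕ | Nat.Coprime (n + 1) Q}) (𝓝 ((Q : ℝ) / Nat.totient Q))) :
    (∀ᵐ ω ∂μ, ∀ ε : ℝ, 0 < ε → ∃ K : ℝ, ∀ a b c d : ℤ, Admissible a b c d →
      ∃ p q r : ℕ, (0 < p ∧ ω ∈ A p) ∧ (0 < q ∧ ω ∈ A q) ∧ (0 < r ∧ ω ∈ A r) ∧ p ≠ q ∧ q ≠ r ∧ p ≠ r ∧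
        a * p + b * q + c * r = d ∧
        ((max p (max q r) : ℕ) : ℝ) ≤ 3 * |d| + K * (mx a b c : ℝ) ^ (1 + ε)) ∧
    (∀ᵐ ω ∂μ, bakerConstant {n : ℕ | 0 < n ∧ ω ∈ A n} = 1) := by
  have h1 : ∀ᵐ ω ∂μ, ∀ ε : ℝ, 0 < ε → ∃ K : ℝ, ∀ a b c d : ℤ, Admissible a b c d →
      ∃ p q r : ℕ, (0 < p ∧ ω ∈ A p) ∧ (0 < q ∧ ω ∈ A q) ∧ (0 < r ∧ ω ∈ A r) ∧ p ≠ q ∧ q ≠ r ∧ p ≠ r ∧
        a * p + b * q + c * r = d ∧
        ((max p (max q r) : ℕ) : ℝ) ≤ 3 * |d| + K * (mx a b c : ℝ) ^ (1 + ε) := by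
    have h2 : ∀ᵐ ω ∂μ, ∀ k : ℕ, ∃ K : ℝ, ∀ a b c d : ℤ, Admissible a b c d →
        ∃ p q r : ℕ, (0 < p ∧ ω ∈ A p) ∧ (0 < q ∧ ω ∈ A q) ∧ (0 < r ∧ ω ∈ A r) ∧ p ≠ q ∧ q ≠ r ∧ p ≠ r ∧
        a * p + b * q + c * r = d ∧
        ((max p (max q r) : ℕ) : ℝ) ≤ 3 * |d| + K * (mx a b c : ℝ) ^ (1 + 1 / ((k : ℝ) + 1)) := by
      rw [ae_all_iff]
      intro k
      have he : (0 : ℝ) < 1 / ((k : ℝ) + 1) := by positivity
      filter_upwards [bak (μ := μ) hA Q hQ hcop hd (1 / ((k : ℝ) + 1) / (1 + 1 / ((k : ℝ) + 1))) (by positivity)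
        (by rw [div_lt_one (by positivity)]; linarith)] with ω hω
      exact upper (fun n => ω ∈ A n) _ he hω
    filter_upwards [h2] with ω hω ε hε
    obtain ⟨k, hk⟩ := exists_nat_one_div_lt hε
    obtain ⟨K, hK⟩ := hω k
    refine ⟨|K|, fun a b c d hab => ?_⟩
    obtain ⟨p, q, r, c1, c2, c3, c4, c5, c6, c7, c8⟩ := hK a b c d hab
    refine ⟨p, q, r, c1, c2, c3, c4, c5, c6, c7, c8.trans ?_⟩
    have hm3 : (3 : ℤ) ≤ mx a b c := le_max_left _ _
    have hm3' : (3 : ℝ) ≤ mx a b c := by exact_mod_cast hm3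
    have k1 : (mx a b c : ℝ) ^ (1 + 1 / ((k : ℝ) + 1)) ≤ (mx a b c : ℝ) ^ (1 + ε) :=
      Real.rpow_le_rpow_of_exponent_le (by linarith) (by linarith)
    have k2 : 0 ≤ (mx a b c : ℝ) ^ (1 + 1 / ((k : ℝ) + 1)) := Real.rpow_nonneg (by linarith) _
    have k3 : K * (mx a b c : ℝ) ^ (1 + 1 / ((k : ℝ) + 1)) ≤ |K| * (mx a b c : ℝ) ^ (1 + ε) :=
      mul_le_mul (le_abs_self K) k1 k2 (abs_nonneg K)
    linarith
  refine ⟨h1, ?_⟩
  filter_upwards [h1] with ω hω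
  have hgood : ∀ t : ℝ, 1 < t → Good {n : ℕ | 0 < n ∧ ω ∈ A n} t := by
    intro t ht
    obtain ⟨K, hK⟩ := hω ((t - 1) / 2) (by linarith)
    obtain ⟨N, hN⟩ := (eventually_atTop.1 (Pool.Agent.N909.TF.pow_beat (1 + (t - 1) / 2) t (max K 0) (by linarith) (by linarith)))
    refine ⟨N, fun a b c d hab hm => ?_⟩
    obtain ⟨p, q, r, c1, c2, c3, c4, c5, c6, c7, c8⟩ := hK a b c d hab
    refine ⟨p, c1, q, c2, r, c3, c7, c8.trans ?_⟩
    have hm3 : (3 : ℤ) ≤ mx a b c := le_max_left _ _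
    obtain ⟨M, hM⟩ : ∃ M : ℕ, mx a b c = M := ⟨(mx a b c).toNat, by omega⟩
    rw [hM] at hm ⊢
    rw [Int.cast_natCast] at hm ⊢
    have h3 := hN M (by exact_mod_cast hm)
    have h4 : 0 ≤ (M : ℝ) ^ (1 + (t - 1) / 2) := by positivity
    have h5 : K * (M : ℝ) ^ (1 + (t - 1) / 2) ≤ max K 0 * (M : ℝ) ^ (1 + (t - 1) / 2) :=
      mul_le_mul_of_nonneg_right (le_max_left _ _) h4
    have h6 : 0 ≤ max K 0 := le_max_right _ _
    linarith
  have hlow : ∀ t ∈ {t : ℝ | Good {n : ℕ | 0 < n ∧ ω ∈ A n} t}, 1 ≤ t := fun t ht => lower _ (fun n hn => hn.1) t ht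
  unfold bakerConstant
  refine le_antisymm ?_ (le_csInf ⟨2, hgood 2 (by norm_num)⟩ hlow)
  refine le_of_forall_pos_le_add fun ε hε => ?_
  exact csInf_le ⟨1, hlow⟩ (hgood (1 + ε) (by linarith))
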