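import Mathlib

/-!
# Baker's constant is larger than 1

Baker's constant `M` is the infimum of the exponents `μ` for which every admissible equation
`a p + b q + c r = d` has a solution in primes with `max (p, q, r) ≤ 3 |d| + m ^ μ`,
`m = max (3, |a|, |b|, |c|)`. The equation `- p + 2 q + 3 r = 0` is admissible, has `m = 3`, and its
least solution in primes is `p = 13`, `q = 2`, `r = 3`; so `M ≥ log 13 / log 3 > 2.33`, and the
conjectured value `M = 1` is not correct.
-/

namespace Pool.Agent.Results.MP_3923f3_nt.SmallCoefficients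

/-- The admissible quadruples of the problem file. -/
def Admissible (a b c d : ℤ) : Prop :=
  (a ≠ 0 ∧ b ≠ 0 ∧ c ≠ 0) ∧ ¬ (0 < a ∧ 0 < b ∧ 0 < c) ∧ ¬ (a < 0 ∧ b < 0 ∧ c < 0) ∧
    Even (a + b + c - d) ∧
    (Int.gcd (Int.gcd a b) c = 1 ∧ Int.gcd (Int.gcd d a) b = 1 ∧ Int.gcd (Int.gcd d a) c = 1 ∧
      Int.gcd (Int.gcd d b) c = 1)

/-- `m (a, b, c) = max (3, |a|, |b|, |c|)`. -/
def mm (a b c : ℤ) : ℤ := max 3 (max |a| (max |b| |c|))

/-- The real number `μ` is good: every admissible equation `a p + b q + c r = d` has a solution in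
primes with `max (p, q, r) ≤ 3 |d| + m (a, b, c) ^ μ`. -/
def Good (μ : ℝ) : Prop :=
  ∀ a b c d : ℤ, Admissible a b c d → ∃ p q r : ℕ, p.Prime ∧ q.Prime ∧ r.Prime ∧
    a * p + b * q + c * r = d ∧
    ((max p (max q r) : ℕ) : ℝ) ≤ 3 * |(d : ℝ)| + (mm a b c : ℝ) ^ μ

/-- Baker's constant, the infimum of the good numbers (in the extended reals). -/
noncomputable def M : EReal := sInf ((fun μ : ℝ => (μ : EReal)) '' {μ | Good μ})

theorem least (p q r : ℕ) (hp : p.Prime) (hq : q.Prime) (hr : r.Prime)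
    (h : (-1 : ℤ) * p + 2 * q + 3 * r = 0) : 13 ≤ p := by
  have h1 : p = 2 * q + 3 * r := by
    have : (p : ℤ) = ((2 * q + 3 * r : ℕ) : ℤ) := by
      push_cast
      linarith
    exact_mod_cast this
  by_contra hlt
  push Not at hlt
  have hq2 := hq.two_le
  have hr2 := hr.two_le
  have hq3 : q ≤ 3 := by omega
  have hr3 : r ≤ 2 := by omega
  have hr4 : r = 2 := le_antisymm hr3 hr2
  subst hr4
  interval_cases q
  · subst h1
    exact absurd hp (by norm_num)
  · subst h1
    exact absurd hp (by norm_num)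

theorem lower {μ : ℝ} (h : Good μ) : Real.log 13 / Real.log 3 ≤ μ := by
  have hadm : Admissible (-1) 2 3 0 := by
    refine ⟨⟨by norm_num, by norm_num, by norm_num⟩, by norm_num, by norm_num, ⟨2, by norm_num⟩, ?_⟩
    decide
  obtain ⟨p, q, r, hp, hq, hr, he, hle⟩ := h (-1) 2 3 0 hadm
  have h13 : 13 ≤ p := least p q r hp hq hr he
  have hmm : mm (-1) 2 3 = 3 := by decide
  rw [hmm] at hle
  have h1 : (13 : ℝ) ≤ ((max p (max q r) : ℕ) : ℝ) := by
    exact_mod_cast h13.trans (le_max_left _ _)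
  have h2 : (13 : ℝ) ≤ (3 : ℝ) ^ μ := by
    have := h1.trans hle
    simpa using this
  have hlog3 : 0 < Real.log 3 := Real.log_pos (by norm_num)
  rw [div_le_iff₀ hlog3, ← Real.log_rpow (by norm_num : (0 : ℝ) < 3)]
  exact Real.log_le_log (by norm_num) h2

theorem size : (2.33 : ℝ) < Real.log 13 / Real.log 3 := by
  have hlog3 : 0 < Real.log 3 := Real.log_pos (by norm_num)
  rw [lt_div_iff₀ hlog3]
  have h1 : (233 : ℝ) * Real.log 3 < 100 * Real.log 13 := by
    have e1 : (233 : ℝ) * Real.log 3 = Real.log ((3 : ℝ) ^ 233) := by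
      rw [Real.log_pow]
      norm_num
    have e2 : (100 : ℝ) * Real.log 13 = Real.log ((13 : ℝ) ^ 100) := by
      rw [Real.log_pow]
      norm_num
    rw [e1, e2]
    exact Real.log_lt_log (by positivity) (by norm_num)
  linarith

/-- Every good number is at least `log 13 / log 3`; so Baker's constant is at least
`log 13 / log 3 > 2.33`, and it is not `1`. -/
theorem result :
    (∀ μ : ℝ, Good μ → Real.log 13 / Real.log 3 ≤ μ) ∧
      ((Real.log 13 / Real.log 3 : ℝ) : EReal) ≤ M ∧
      (2.33 : ℝ) < Real.log 13 / Real.log 3 ∧ M ≠ 1 := by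
  have hM : ((Real.log 13 / Real.log 3 : ℝ) : EReal) ≤ M := by
    refine le_sInf ?_
    rintro x ⟨μ, hμ, rfl⟩
    exact EReal.coe_le_coe_iff.2 (lower hμ)
  refine ⟨fun μ hμ => lower hμ, hM, size, ?_⟩
  intro h1
  rw [h1] at hM
  have h2 : Real.log 13 / Real.log 3 ≤ 1 := by
    exact_mod_cast hM
  have := size
  linarith

end Pool.Agent.Results.MP_3923f3_nt.SmallCoefficients
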